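import Mathlib
import Pool.Agent.Helper69.MC.StA

/-!
# Module CLO of project MC: clopen sets in the plane minus a convex curve
-/

set_option autoImplicit false

namespace Pool.Agent.Helper32.MC

open Set Topology Filter MeasureTheory
open Pool.Agent.Helper31.CY Pool.Agent.Helper69.MF Pool.Agent.Helper69.MC

theorem compl_preconnected (K : Set (ℝ × ℝ)) (hK : CB K) : IsPreconnected Kᶜ := by
  obtain ⟨hc, hv, o, ho⟩ := hK
  have hoK : o ∈ K := interior_subset ho
  obtain ⟨R, hR, hKR⟩ := hc.isBounded.subset_ball_lt 0 o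
  have h2 : 1 < Module.rank ℝ (ℝ × ℝ) := by
    rw [rank_prod', Module.rank_self, one_add_one_eq_two]
    exact Cardinal.one_lt_two
  have hsph : IsConnected (Metric.sphere o R) := isConnected_sphere h2 o hR.le
  have hsK : Metric.sphere o R ⊆ Kᶜ := by
    intro y hy hyK
    have h := hKR hyK
    rw [Metric.mem_ball] at h
    rw [Metric.mem_sphere] at hy
    linarith
  obtain ⟨x0, hx0⟩ := hsph.nonempty
  refine isPreconnected_of_forall x0 ?_
  intro y hy
  have hyo : y - o ≠ 0 := by
    intro h
    rw [sub_eq_zero] at h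
    rw [h] at hy
    exact hy hoK
  have hn : 0 < ‖y - o‖ := norm_pos_iff.2 hyo
  -- points of the ray
  have hray : ∀ t : ℝ, 1 ≤ t → o + t • (y - o) ∈ Kᶜ := by
    intro t ht hmem
    apply hy
    have ht0 : 0 < t := by linarith
    have h1 : 0 ≤ 1 - t⁻¹ := by
      have := inv_le_one_of_one_le₀ ht
      linarith
    have h3 := hv hoK hmem h1 (inv_nonneg.2 ht0.le) (by ring)
    have h4 : (1 - t⁻¹) • o + t⁻¹ • (o + t • (y - o)) = y := by
      rw [smul_add, smul_smul, inv_mul_cancel₀ ht0.ne', one_smul, sub_smul, one_smul]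
      abel
    rw [h4] at h3
    exact h3
  have hfar : ∀ t : ℝ, R / ‖y - o‖ ≤ t → o + t • (y - o) ∈ Kᶜ := by
    intro t ht hmem
    have h := hKR hmem
    rw [Metric.mem_ball, dist_eq_norm, add_sub_cancel_left, norm_smul] at h
    have h5 : R ≤ ‖t‖ * ‖y - o‖ := by
      rw [div_le_iff₀ hn] at ht
      exact ht.trans (mul_le_mul_of_nonneg_right (le_abs_self t) hn.le)
    linarith
  set p : ℝ × ℝ := o + (R / ‖y - o‖) • (y - o) with hp
  have hps : p ∈ Metric.sphere o R := by
    rw [Metric.mem_sphere, dist_eq_norm, hp, add_sub_cancel_left, norm_smul, Real.norm_eq_abs,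
      abs_of_nonneg (by positivity), div_mul_cancel₀ _ hn.ne']
  have hseg : segment ℝ y p ⊆ Kᶜ := by
    rintro z ⟨a, b, ha, hb, hab, rfl⟩
    have h6 : a • y + b • p = o + (a + b * (R / ‖y - o‖)) • (y - o) := by
      have h7 : a • y = a • o + a • (y - o) := by rw [← smul_add]; congr 1; abel
      have h8 : (a + b) • o = o := by rw [hab, one_smul]
      rw [h7, hp, smul_add, smul_smul, add_smul]
      rw [add_smul] at h8
      calc a • o + a • (y - o) + (b • o + (b * (R / ‖y - o‖)) • (y - o))
          = (a • o + b • o) + (a • (y - o) + (b * (R / ‖y - o‖)) • (y - o)) := by abel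
        _ = _ := by rw [h8]
    rw [h6]
    rcases le_total 1 (R / ‖y - o‖) with h | h
    · apply hray
      have : b * 1 ≤ b * (R / ‖y - o‖) := mul_le_mul_of_nonneg_left h hb
      linarith
    · apply hfar
      have : a * (R / ‖y - o‖) ≤ a * 1 := mul_le_mul_of_nonneg_left h ha
      have h9 : (a + b) * (R / ‖y - o‖) = R / ‖y - o‖ := by rw [hab, one_mul]
      linarith [h9, add_mul a b (R / ‖y - o‖)]
  refine ⟨Metric.sphere o R ∪ segment ℝ y p, union_subset hsK hseg, Or.inl hx0,
    Or.inr (left_mem_segment ℝ y p), ?_⟩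
  exact IsPreconnected.union p hps (right_mem_segment ℝ y p) hsph.isPreconnected
    (convex_segment y p).isPreconnected

theorem hCLO : StCLO := by
  intro K hK
  have h1 := compl_preconnected K hK
  have h2 : IsPreconnected (interior K) := hK.2.1.interior.isPreconnected
  have h3 : frontier K = K \ interior K := hK.1.isClosed.frontier_eq
  refine ⟨h1, h2, h3, ?_⟩
  intro C hC hCb hcl hdis
  have hA : ∀ A : Set (ℝ × ℝ), IsPreconnected A → A ∩ frontier K = ∅ → (A ∩ C).Nonempty → A ⊆ C := by
    intro A hA hAf hne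
    refine hA.subset_of_closure_inter_subset hC hne ?_
    rintro x ⟨hx1, hx2⟩
    by_contra hxC
    have : x ∈ A ∩ frontier K := ⟨hx2, hcl ⟨hx1, hxC⟩⟩
    rw [hAf] at this
    exact this
  have hf1 : Kᶜ ∩ frontier K = ∅ := by
    rw [h3]
    exact eq_empty_of_forall_notMem fun x hx => hx.1 hx.2.1
  have hf2 : interior K ∩ frontier K = ∅ := by
    rw [h3]
    exact eq_empty_of_forall_notMem fun x hx => hx.2.2 hx.1
  have hCK : C ⊆ interior K := by
    intro x hx
    by_contra hxi
    have hxK : x ∉ K := by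
      intro hxK
      have : x ∈ C ∩ frontier K := ⟨hx, by rw [h3]; exact ⟨hxK, hxi⟩⟩
      rw [hdis] at this
      exact this
    have hsub := hA Kᶜ h1 hf1 ⟨x, hxK, hx⟩
    have hbd : Bornology.IsBounded (univ : Set (ℝ × ℝ)) := by
      refine (hK.1.isBounded.union hCb).subset ?_
      intro z _
      by_cases hz : z ∈ K
      · exact Or.inl hz
      · exact Or.inr (hsub hz)
    exact NormedSpace.unbounded_univ ℝ (ℝ × ℝ) hbd
  rcases C.eq_empty_or_nonempty with h | ⟨x, hx⟩
  · exact Or.inl h
  · exact Or.inr (Subset.antisymm hCK (hA _ h2 hf2 ⟨x, hCK hx, hx⟩))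

end Pool.Agent.Helper32.MC
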