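import Mathlib
import Pool.Agent.Helper69.MC.StC

/-!
# Project MC, module GAU: the gauge function of a convex body
-/

set_option autoImplicit false

namespace Pool.Agent.Helper32.MC

open Set Topology Filter MeasureTheory
open Pool.Agent.Helper31.CY Pool.Agent.Helper69.MF Pool.Agent.Helper69.MC

theorem hGAU : StGAU := by
  intro K o hK ho
  obtain ⟨hcpt, hconv, -⟩ := hK
  have hCeq : ((fun v : ℝ × ℝ => o + v) ⁻¹' K) = (Homeomorph.addLeft o) ⁻¹' K := rfl
  set C : Set (ℝ × ℝ) := (Homeomorph.addLeft o) ⁻¹' K with hC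
  have hCc : Convex ℝ C := by
    intro a ha b hb s t hs ht hst
    have ha' : o + a ∈ K := ha
    have hb' : o + b ∈ K := hb
    have h := hconv ha' hb' hs ht hst
    show o + (s • a + t • b) ∈ K
    have h2 : s • (o + a) + t • (o + b) = o + (s • a + t • b) := by
      have : o = (s + t) • o := by rw [hst, one_smul]
      calc s • (o + a) + t • (o + b) = (s + t) • o + (s • a + t • b) := by
            simp only [smul_add, add_smul]; abel
        _ = o + (s • a + t • b) := by rw [← this]
    rw [← h2]; exact h
  have hint : interior C = (Homeomorph.addLeft o) ⁻¹' interior K :=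
    ((Homeomorph.addLeft o).preimage_interior K).symm
  have hclo : IsClosed C := hcpt.isClosed.preimage (Homeomorph.addLeft o).continuous
  have h0 : C ∈ 𝓝 (0 : ℝ × ℝ) := by
    rw [← mem_interior_iff_mem_nhds, hint]
    show o + 0 ∈ interior K
    rw [add_zero]; exact ho
  have hmem : ∀ y : ℝ × ℝ, y - o ∈ C ↔ y ∈ K := by
    intro y
    show o + (y - o) ∈ K ↔ y ∈ K
    rw [add_sub_cancel]
  have hmemi : ∀ y : ℝ × ℝ, y - o ∈ interior C ↔ y ∈ interior K := by
    intro y
    rw [hint]
    show o + (y - o) ∈ interior K ↔ y ∈ interior K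
    rw [add_sub_cancel]
  refine ⟨fun y => gauge C (y - o), ?_, ?_, ?_, ?_, ?_⟩
  · exact (continuous_gauge hCc h0).comp (continuous_id.sub continuous_const)
  · intro y; exact gauge_nonneg _
  · intro y
    rw [gauge_le_one_iff_mem_closure hCc h0, hclo.closure_eq, hmem]
  · intro y
    rw [gauge_lt_one_iff_mem_interior hCc h0, hmemi]
  · intro y t ht
    have h1 : o + t • (y - o) - o = t • (y - o) := by abel
    show gauge C (o + t • (y - o) - o) = t * gauge C (y - o)
    rw [h1, gauge_smul_of_nonneg ht, smul_eq_mul]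

end Pool.Agent.Helper32.MC
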